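import Pool.Agent.Run7.h947.IW.Orb

/-!
# A gap for the growth of the class group ranks of abelian extensions of imaginary quadratic fields

`Qb` is an algebraic closure of `ℚ`, and `p` is an odd prime. Let `k` be an imaginary quadratic field
(the theorem holds for all quadratic fields `k`) and let `K / k` be a finite abelian extension which is
Galois over `ℚ` (each abelian extension of `k` is contained in such a `K`, and `μ = 0` passes to subfields).
For a number field `F` let `r(F)` be the order of `Cl(F) / p`, that is, the largest degree of an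
unramified abelian extension of `F` of exponent `p`; `DegLe p F C` says `r(F) ≤ C`. The layers `F R` of the
cyclotomic `ℤ_p`-extension of `F` are given by the layers `R` of the one of `ℚ` (`IsLayer`), and `μ = 0`
for `F` if and only if the `r(F R)` are bounded (`MuZero`).

For a cyclic extension `E / k` of degree `n` prime to `p` let `w(E)` be the number of the characters
`Gal(E/k) → \bar 𝔽_p^×` which are conjugate to a given faithful one by `Gal(\bar 𝔽_p / 𝔽_p)` and by complex
conjugation (as a character of `Gal(K/k)`). So `w(E)` is the order `o` of `p` modulo `n` if complex conjugation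
acts on `Gal(E/k)` as `σ ↦ σ ^ (p ^ j)` for some `j`, and otherwise `w(E) = 2 o`. Let `𝓔(d)` be the set
of the `E ≤ K` with `w(E) < d` (`SmallFields`).

**Theorem.** Let `R ≤ R'` be layers, and let the degree of `R` be at least the largest power of `p` which
divides `[K : ℚ]`. If

  `r(K R') < p ^ (d ([K R' : K] - [K R : K])) r(K R)`

then `μ = 0` for `K` if and only if `μ = 0` for all `E` in `𝓔(d)`. If this holds with `d = 2` then `μ = 0`
for `K` if and only if `μ = 0` for the largest subfield `K^ab` which is abelian over `ℚ`, where it is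
the theorem of Ferrero and Washington.

So, for `p` prime to `[K : ℚ]` and `n' > n ≥ 0`: Q1 for `K` follows if the `p`-rank of the class group of
the layer `K_n'` exceeds the one of `K_n` by less than `2 (p^n' - p^n)`, and if it exceeds it by less than
`d (p^n' - p^n)` then Q1 for `K` remains only for the cyclic extensions `E / k` with `w(E) < d`. For example
let `K / k` be cyclic of prime degree `l ≠ p` and `K / ℚ` dihedral. Then `w(K)` is the order of the group
generated by `p` and `-1` modulo `l`, so `μ(K) = 0` if the rank grows by less than `w(K) (p^n' - p^n)`.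

Proof. The gap theorem `Run7.h947.IW.gap` reduces this to representations: a nonzero representation of
`Gal(K/ℚ)` over `𝔽_p` of dimension less than `d` has a nonzero vector fixed by `Gal(K/E)` for some `E` in
`𝓔(d)`. Over `\bar 𝔽_p` it has an eigenvector of `Gal(K/k)`, with a character `χ`; all conjugates of `χ` occur,
and they are linearly independent. Take for `E` the field of `χ`. That `p` is totally ramified in the layers
above `K R` follows from the surjectivity of the inertia groups onto the Galois groups of the fields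
`ℚ(μ_{p^N})`, which is proved in `Run7.h947.IW.Tot`.
-/

set_option autoImplicit false

namespace Pool.Agent.Results.MP_b78433_nt.AbelianRankGap

open IntermediateField Module Pool.Agent.Q60.MU Pool.Agent.W5h77.MB Pool.Agent.W5h33.DF Run7.h947.IW

/-- `K / ℚ` is a finite Galois extension. -/
def IsFiniteGalois (K : IntermediateField ℚ Qb) : Prop := FiniteDimensional ℚ K ∧ IsGalois ℚ K

/-- `K` is an abelian extension of `k` (if `K` is Galois over `ℚ`). -/
def IsAbelianOver (k K : IntermediateField ℚ Qb) : Prop :=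
  k ≤ K ∧ ∀ σ ∈ k.fixingSubgroup, ∀ τ ∈ k.fixingSubgroup, ∀ x ∈ K, σ (τ x) = τ (σ x)

/-- `E / k` is a cyclic Galois extension. -/
def IsCyclicOver (k E : IntermediateField ℚ Qb) : Prop :=
  k ≤ E ∧ (∀ σ ∈ k.fixingSubgroup, ∀ x ∈ E, σ x ∈ E) ∧
    ∃ σ ∈ k.fixingSubgroup, ∀ τ ∈ k.fixingSubgroup, ∃ i : ℕ, ∀ x ∈ E, τ x = (σ ^ i) x

/-- `[E : k]` -/
noncomputable def deg (k E : IntermediateField ℚ Qb) : ℕ := finrank ℚ E / finrank ℚ k

/-- The order of `p` modulo `[E : k]`. -/
noncomputable def ord (p : ℕ) (k E : IntermediateField ℚ Qb) : ℕ := orderOf (p : ZMod (deg k E))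

/-- The automorphisms which are not the identity on `k` act on `Gal(E/k)` as `σ ↦ σ ^ (p ^ j)`. -/
def ConjIsFrobenius (p : ℕ) (k E : IntermediateField ℚ Qb) : Prop :=
  ∃ j : ℕ, ∀ c : Gal(Qb/ℚ), c ∉ k.fixingSubgroup → ∀ σ ∈ k.fixingSubgroup, ∀ x ∈ E,
    (c * σ * c⁻¹) x = (σ ^ p ^ j) x

/-- The subfields `E` of `K` which are cyclic over `k`, of degree prime to `p`, with `w(E) < d`. -/
def SmallFields (p d : ℕ) (k K : IntermediateField ℚ Qb) : Set (IntermediateField ℚ Qb) :=
  {E | E ≤ K ∧ IsCyclicOver k E ∧ ¬ p ∣ deg k E ∧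
    (2 * ord p k E < d ∨ ord p k E < d ∧ ConjIsFrobenius p k E)}

/-- `r(K R') ≤ C`, `r(K R) ≥ E + 1` and `C < p ^ (d ([K R' : K] - [K R : K])) (E + 1)`. -/
def SmallGrowth (p d : ℕ) (K R R' : IntermediateField ℚ Qb) : Prop :=
  ∃ C E, DegLe p (K ⊔ R') C ∧ ¬ DegLe p (K ⊔ R) E ∧
    C < p ^ (d * (deg K (K ⊔ R') - deg K (K ⊔ R))) * (E + 1)

variable {p : ℕ} [hp : Fact p.Prime] {k K : IntermediateField ℚ Qb}

theorem index_two (hk : finrank ℚ k = 2) : k.fixingSubgroup.index = 2 := by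
  have hfd : FiniteDimensional ℚ k := FiniteDimensional.of_finrank_pos (by rw [hk]; norm_num)
  rw [← finrank_eq_fixingSubgroup_index, hk]

theorem deg_eq {k E : IntermediateField ℚ Qb} [FiniteDimensional ℚ k] [FiniteDimensional ℚ E] (hkE : k ≤ E) :
    deg k E = E.fixingSubgroup.relIndex k.fixingSubgroup := by
  have h1 := Subgroup.relIndex_mul_index (fixingSubgroup_le hkE)
  rw [deg, finrank_eq_fixingSubgroup_index Qb E, finrank_eq_fixingSubgroup_index Qb k, ← h1]
  exact Nat.mul_div_cancel _ (Nat.pos_of_ne_zero (index_ne_zero' k))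

open scoped commutatorElement in
theorem detects [FiniteDimensional ℚ K] [hKg : IsGalois ℚ K] (hk : finrank ℚ k = 2)
    (hab : IsAbelianOver k K) (d : ℕ) : DetectsBelow p d K (SmallFields p d k K) := by
  classical
  intro S _ _ _ τ hK hS hdim
  have hSn := hS.1
  have hfk : FiniteDimensional ℚ k := FiniteDimensional.of_finrank_pos (by rw [hk]; norm_num)
  have hi2 := index_two hk
  have hNn : k.fixingSubgroup.Normal := Subgroup.normal_of_index_eq_two hi2
  have hKk : K.fixingSubgroup ≤ k.fixingSubgroup := fixingSubgroup_le hab.1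
  have hKn : K.fixingSubgroup.Normal := (InfiniteGalois.normal_iff_isGalois K).2 hKg
  have hK0 := index_ne_zero' K
  have hKr : K.fixingSubgroup.relIndex k.fixingSubgroup ≠ 0 := by
    intro h
    have h1 := Subgroup.relIndex_mul_index hKk
    rw [h, zero_mul] at h1
    exact hK0 h1.symm
  have hcomm : ∀ g ∈ k.fixingSubgroup, ∀ h ∈ k.fixingSubgroup, ⁅g, h⁆ ∈ K.fixingSubgroup := by
    intro g hg h hh
    rw [IntermediateField.mem_fixingSubgroup_iff]
    intro x hx
    have h1 : ⁅g, h⁆ x = g (h (g⁻¹ (h⁻¹ x))) := rfl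
    have h2 : ∀ s : Gal(Qb/ℚ), s x ∈ K := by
      intro s
      have h3 : s x ∈ fixedField K.fixingSubgroup := by
        rw [mem_fixedField_iff]
        intro f hf
        have h4 := hKn.conj_mem f hf s⁻¹
        have h5 := (IntermediateField.mem_fixingSubgroup_iff _ _).1 h4 x hx
        have h6 : f (s x) = s ((s⁻¹ * f * s⁻¹⁻¹) x) := by
          show (f * s) x = (s * (s⁻¹ * f * s⁻¹⁻¹)) x
          congr 1
          group
        rw [h6, h5]
      rwa [InfiniteGalois.fixedField_fixingSubgroup] at h3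
    rw [h1, hab.2 h hh g⁻¹ (inv_mem hg) (h⁻¹ x) (h2 _)]
    show (g * (g⁻¹ * (h * h⁻¹))) x = x
    rw [mul_inv_cancel, mul_one, mul_inv_cancel]
    rfl
  have hXn : Nontrivial (Module.Dual (ZMod p) S) := inferInstance
  obtain ⟨H, hKH, hHN, hHc, ⟨g₀, hg₀, hgen⟩, ⟨l, hl0, hl⟩, hpn, ho0, hdim1, hconj⟩ :=
    char_data τ.dual hNn hKk hKr (fun g hg f => by
      ext x
      rw [dual_apply, hK _ (inv_mem hg)]) hcomm
  have hHo : IsOpen (H : Set Gal(Qb/ℚ)) := Subgroup.isOpen_mono hKH K.fixingSubgroup_isOpen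
  have hH0 : H.index ≠ 0 := by
    intro h
    have h1 := Subgroup.index_dvd_of_le hKH
    rw [h] at h1
    exact hK0 (Nat.eq_zero_of_zero_dvd h1)
  set E := fixedField H with hE
  have hEH : E.fixingSubgroup = H := fix_fixed hHo
  have hfE : FiniteDimensional ℚ E := finite_fixed hHo hH0
  have hkE : k ≤ E := (le_iff_le _ _).2 hHN
  have hEK : E ≤ K := by
    have h1 : fixedField H ≤ fixedField K.fixingSubgroup := fixedField_le hKH
    rwa [InfiniteGalois.fixedField_fixingSubgroup] at h1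
  have hdeg : deg k E = H.relIndex k.fixingSubgroup := by rw [deg_eq hkE, hEH]
  have hmemE : ∀ x, x ∈ E ↔ ∀ h ∈ H, h x = x := fun x => mem_fixedField_iff _ _
  have hst : ∀ σ ∈ k.fixingSubgroup, ∀ x ∈ E, σ x ∈ E := by
    intro σ hσ x hx
    rw [hmemE] at hx ⊢
    intro h hh
    have h1 := hHc σ⁻¹ (inv_mem hσ) h hh
    have h2 := hx _ h1
    have h3 : h (σ x) = σ ((σ⁻¹ * h * σ⁻¹⁻¹) x) := by
      show (h * σ) x = (σ * (σ⁻¹ * h * σ⁻¹⁻¹)) x
      congr 1
      group
    rw [h3, h2]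
  have hfin : finrank (ZMod p) (Module.Dual (ZMod p) S) = finrank (ZMod p) S := Subspace.dual_finrank_eq
  rw [hfin] at hdim1 hconj
  refine ⟨E, ⟨hEK, ⟨hkE, hst, g₀, hg₀, fun σ hσ => ?_⟩, by rwa [hdeg], ?_⟩, ?_⟩
  · obtain ⟨i, hi⟩ := hgen σ hσ
    refine ⟨i, fun x hx => ?_⟩
    have h1 : (g₀ ^ i) x ∈ E := hst _ (pow_mem hg₀ i) x hx
    have h2 := (hmemE _).1 h1 _ hi
    rw [← h2]
    show σ x = (σ * (g₀ ^ i)⁻¹ * g₀ ^ i) x
    rw [inv_mul_cancel_right]
  · unfold ord
    rw [hdeg]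
    obtain ⟨c₀, hc₀⟩ : ∃ c : Gal(Qb/ℚ), c ∉ k.fixingSubgroup := by
      by_contra hcon
      push Not at hcon
      have h1 : k.fixingSubgroup = ⊤ := eq_top_iff.2 fun g _ => hcon g
      rw [h1, Subgroup.index_top] at hi2
      exact absurd hi2 (by norm_num)
    rcases hconj c₀ with h | ⟨j, hj⟩
    · left
      omega
    · right
      refine ⟨by omega, j, fun c hc σ hσ x hx => ?_⟩
      have hh : c * c₀⁻¹ ∈ k.fixingSubgroup := by
        rw [Subgroup.mul_mem_iff_of_index_two hi2]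
        exact ⟨fun h => absurd h hc, fun h => absurd (inv_mem_iff.1 h) hc₀⟩
      have h1 := hj σ hσ
      have h2 : c * σ * c⁻¹ * (σ ^ p ^ j)⁻¹ ∈ H := by
        have h3 : c * σ * c⁻¹ * (σ ^ p ^ j)⁻¹ = ⁅c * c₀⁻¹, c₀ * σ * c₀⁻¹⁆ *
            (c₀ * σ * c₀⁻¹ * (σ ^ p ^ j)⁻¹) := by
          rw [commutatorElement_def]
          group
        rw [h3]
        exact H.mul_mem (hKH (hcomm _ hh _ (hNn.conj_mem σ hσ c₀))) h1
      have h4 := (hmemE _).1 (hst _ (pow_mem hσ (p ^ j)) x hx) _ h2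
      rw [← h4]
      show (c * σ * c⁻¹) x = (c * σ * c⁻¹ * (σ ^ p ^ j)⁻¹ * σ ^ p ^ j) x
      rw [inv_mul_cancel_right]
  · refine ⟨(Module.evalEquiv (ZMod p) S).symm l, ?_, fun g hg => ?_⟩
    · intro h
      apply hl0
      rw [← (Module.evalEquiv (ZMod p) S).apply_symm_apply l, h, map_zero]
    · rw [hEH] at hg
      set v := (Module.evalEquiv (ZMod p) S).symm l with hv
      have hev : ∀ f : Module.Dual (ZMod p) S, l f = f v := by
        intro f
        rw [hv, Module.apply_evalEquiv_symm_apply]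
      rw [← sub_eq_zero]
      rw [← Module.forall_dual_apply_eq_zero_iff (ZMod p)]
      intro f
      have h1 := hl g⁻¹ (inv_mem hg) f
      rw [hev, hev, dual_apply, inv_inv] at h1
      rw [map_sub, h1, sub_self]

theorem small_two [FiniteDimensional ℚ K] (hk : finrank ℚ k = 2) {E : IntermediateField ℚ Qb}
    (hE : E ∈ SmallFields p 2 k K) : E ≤ abPart K := by
  obtain ⟨hEK, ⟨hkE, hst, σ₀, hσ₀, hgen⟩, hpn, h⟩ := hE
  have hfE : FiniteDimensional ℚ E := fd_of_le hEK
  have hfk : FiniteDimensional ℚ k := FiniteDimensional.of_finrank_pos (by rw [hk]; norm_num)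
  have hdeg := deg_eq hkE
  have hd0 : deg k E ≠ 0 := by
    rw [hdeg]
    intro h
    have h1 := Subgroup.relIndex_mul_index (fixingSubgroup_le hkE)
    rw [h, zero_mul] at h1
    exact index_ne_zero' E h1.symm
  have hn0 : NeZero (deg k E) := ⟨hd0⟩
  have hcop : Nat.Coprime p (deg k E) := (Nat.Prime.coprime_iff_not_dvd hp.out).2 hpn
  have ho : 0 < ord p k E := by
    rw [ord, ← ZMod.coe_unitOfCoprime p hcop, orderOf_units]
    exact orderOf_pos _
  have hcase : ord p k E = 1 ∧ ConjIsFrobenius p k E := by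
    rcases h with h | ⟨h, h'⟩
    · omega
    · exact ⟨by omega, h'⟩
  obtain ⟨h1, j, hj⟩ := hcase
  have hp1 : (p : ZMod (deg k E)) = 1 := orderOf_eq_one_iff.1 h1
  have hEn : (E.fixingSubgroup.subgroupOf k.fixingSubgroup).Normal := by
    refine ⟨fun x hx g => ?_⟩
    rw [Subgroup.mem_subgroupOf] at hx ⊢
    rw [IntermediateField.mem_fixingSubgroup_iff] at hx ⊢
    intro y hy
    have h2 := hx _ (hst _ (inv_mem g.2) y hy)
    show ((g : Gal(Qb/ℚ)) * x * (g : Gal(Qb/ℚ))⁻¹) y = y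
    show (g : Gal(Qb/ℚ)) ((x : Gal(Qb/ℚ)) ((g : Gal(Qb/ℚ))⁻¹ y)) = y
    rw [h2]
    show ((g : Gal(Qb/ℚ)) * (g : Gal(Qb/ℚ))⁻¹) y = y
    rw [mul_inv_cancel]
    rfl
  have hpow : ∀ σ ∈ k.fixingSubgroup, ∀ x ∈ E, (σ ^ deg k E) x = x := by
    intro σ hσ x hx
    have h2 : (⟨σ, hσ⟩ : k.fixingSubgroup) ^ (E.fixingSubgroup.subgroupOf k.fixingSubgroup).index ∈
        E.fixingSubgroup.subgroupOf k.fixingSubgroup := Subgroup.pow_index_mem _ _
    have h3 : (E.fixingSubgroup.subgroupOf k.fixingSubgroup).index = deg k E := by rw [hdeg]; rfl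
    rw [h3] at h2
    exact (IntermediateField.mem_fixingSubgroup_iff _ _).1 h2 x hx
  have hpj : ∀ σ ∈ k.fixingSubgroup, ∀ x ∈ E, (σ ^ p ^ j) x = σ x := by
    intro σ hσ x hx
    have h2 : p ^ j ≡ 1 [MOD deg k E] := by
      rw [← ZMod.natCast_eq_natCast_iff, Nat.cast_pow, hp1, one_pow, Nat.cast_one]
    have h4 : 1 ≤ p ^ j := Nat.one_le_pow _ _ hp.out.pos
    obtain ⟨t, ht⟩ := (Nat.modEq_iff_dvd' h4).1 h2.symm
    have h5 : p ^ j = deg k E * t + 1 := by omega
    rw [h5, pow_add, pow_one, pow_mul]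
    show ((σ ^ deg k E) ^ t) (σ x) = σ x
    have h6 : σ x ∈ E := hst σ hσ x hx
    have h7 : ∀ t : ℕ, ((σ ^ deg k E) ^ t) (σ x) = σ x := by
      intro t
      induction t with
      | zero => rw [pow_zero]; rfl
      | succ t ih =>
        rw [pow_succ]
        show ((σ ^ deg k E) ^ t) ((σ ^ deg k E) (σ x)) = σ x
        rw [hpow σ hσ _ h6, ih]
    exact h7 t
  have hcσ : ∀ c : Gal(Qb/ℚ), c ∉ k.fixingSubgroup → ∀ σ ∈ k.fixingSubgroup, ∀ x ∈ E,
      (c * σ * c⁻¹) x = σ x := fun c hc σ hσ x hx => by rw [hj c hc σ hσ x hx, hpj σ hσ x hx]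
  -- `E` is stable
  have hstc : ∀ c : Gal(Qb/ℚ), ∀ x ∈ E, c x ∈ E := by
    intro c x hx
    by_cases hc : c ∈ k.fixingSubgroup
    · exact hst c hc x hx
    have h2 : c x ∈ fixedField E.fixingSubgroup := by
      rw [mem_fixedField_iff]
      intro f hf
      have hfk' : f ∈ k.fixingSubgroup := fixingSubgroup_le hkE hf
      have h3 := hcσ c⁻¹ (fun h => hc (inv_mem_iff.1 h)) f hfk' x hx
      rw [(IntermediateField.mem_fixingSubgroup_iff _ _).1 hf x hx, inv_inv] at h3
      have h4 : f (c x) = c ((c⁻¹ * f * c) x) := by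
        show (f * c) x = (c * (c⁻¹ * f * c)) x
        congr 1
        group
      rw [h4, h3]
    rwa [InfiniteGalois.fixedField_fixingSubgroup] at h2
  have hcom1 : ∀ σ ∈ k.fixingSubgroup, ∀ τ ∈ k.fixingSubgroup, ∀ x ∈ E, σ (τ x) = τ (σ x) := by
    intro σ hσ τ hτ x hx
    obtain ⟨a, ha⟩ := hgen σ hσ
    obtain ⟨b, hb⟩ := hgen τ hτ
    rw [hb x hx, ha x hx, ha _ (hst _ (pow_mem hσ₀ b) x hx), hb _ (hst _ (pow_mem hσ₀ a) x hx)]
    show (σ₀ ^ a * σ₀ ^ b) x = (σ₀ ^ b * σ₀ ^ a) x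
    rw [← pow_add, ← pow_add, add_comm]
  have hcom2 : ∀ c : Gal(Qb/ℚ), c ∉ k.fixingSubgroup → ∀ σ ∈ k.fixingSubgroup, ∀ x ∈ E,
      c (σ x) = σ (c x) := by
    intro c hc σ hσ x hx
    have h2 := hcσ c hc σ hσ (c x) (hstc c x hx)
    rw [← h2]
    show (c * σ) x = (c * σ * c⁻¹ * c) x
    rw [inv_mul_cancel_right]
  intro x hx
  rw [mem_abPart]
  refine ⟨hEK hx, fun g h => ?_⟩
  obtain ⟨c, hc⟩ : ∃ c : Gal(Qb/ℚ), c ∉ k.fixingSubgroup := by
    by_contra hcon
    push Not at hcon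
    have h1 : k.fixingSubgroup = ⊤ := eq_top_iff.2 fun g _ => hcon g
    have hi2 := index_two hk
    rw [h1, Subgroup.index_top] at hi2
    exact absurd hi2 (by norm_num)
  -- all elements are `s` or `s c`
  have hdec : ∀ g : Gal(Qb/ℚ), ∃ s ∈ k.fixingSubgroup, g = s ∨ g = s * c := by
    intro g
    rcases quad_cases hk hc g with hg | ⟨s, hs, rfl⟩
    · exact ⟨g, hg, Or.inl rfl⟩
    · exact ⟨s, hs, Or.inr rfl⟩
  obtain ⟨s, hs, hg⟩ := hdec g
  obtain ⟨t, ht, hh⟩ := hdec h
  have hcx := hstc c x hx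
  rcases hg with rfl | rfl <;> rcases hh with rfl | rfl
  · exact hcom1 _ hs _ ht x hx
  · show g (t (c x)) = t (c (g x))
    rw [hcom1 _ hs _ ht _ hcx, hcom2 c hc g hs x hx]
  · show s (c (h x)) = h (s (c x))
    rw [hcom2 c hc h ht x hx, hcom1 _ hs _ ht _ hcx]
  · show s (c (t (c x))) = t (c (s (c x)))
    rw [hcom2 c hc t ht _ hcx, hcom2 c hc s hs _ hcx, hcom1 _ hs _ ht _ (hstc c _ hcx)]

theorem result (p : ℕ) (hp2 : p ≠ 2) [Fact p.Prime] (k K : IntermediateField ℚ Qb)
    (hk : finrank ℚ k = 2) (hK : IsFiniteGalois K) (hab : IsAbelianOver k K) (m n : ℕ)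
    (R R' : IntermediateField ℚ Qb) (hR : IsLayer p m R) (hR' : IsLayer p n R') (hRR : R ≤ R')
    (hm : ¬ p ^ (m + 1) ∣ finrank ℚ K) (d : ℕ) (h : SmallGrowth p d K R R') :
    (MuZero p K ↔ ∀ E ∈ SmallFields p d k K, MuZero p E) ∧
      (d ≤ 2 → (MuZero p K ↔ MuZero p (abPart K))) := by
  obtain ⟨hKf, hKg⟩ := hK
  obtain ⟨C, E, hC, hE, hCE⟩ := h
  have h1 : MuZero p K ↔ ∀ E ∈ SmallFields p d k K, MuZero p E :=
    gap (I := inertia) hp2 inertia_conj (fun A => Or.inl le_rfl) K (SmallFields p d k K)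
      (fun E hE => hE.1) (detects hk hab d) hR hR' hRR (inertia_total hp2 le_rfl hR hm) hC hE hCE
  refine ⟨h1, fun hd => ⟨fun h2 => mu_down (Fact.out : p.Prime) (abPart_le K) h2, fun h2 => ?_⟩⟩
  rw [h1]
  intro E hE
  have h3 : E ∈ SmallFields p 2 k K := by
    obtain ⟨a, b, c, e⟩ := hE
    refine ⟨a, b, c, ?_⟩
    rcases e with e | ⟨e, e'⟩
    · left
      omega
    · exact Or.inr ⟨by omega, e'⟩
  have h4 := small_two hk h3
  have hfA : FiniteDimensional ℚ (abPart K) := fd_of_le (abPart_le K)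
  have hgA : IsGalois ℚ (abPart K) := by
    refine (InfiniteGalois.normal_iff_isGalois (abPart K)).1 ?_
    rw [fix_abPart]
    have hKn : K.fixingSubgroup.Normal := (InfiniteGalois.normal_iff_isGalois K).2 hKg
    infer_instance
  exact mu_down (Fact.out : p.Prime) h4 h2

end Pool.Agent.Results.MP_b78433_nt.AbelianRankGap
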