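import Pool.Agent.Run7.h759.UD.Bridge

/-!
# `μ = 0` for the abelian extensions of an imaginary quadratic field: reduction to unramified steps

`Qb` is an algebraic closure of `ℚ`, and number fields are finite subextensions of `Qb / ℚ`. For a
number field `F` and an odd prime `p`, `MuNull p Inert F` says that the degrees of the unramified elementary
abelian `p`-extensions of the layers `F R` of the cyclotomic `ℤ_p`-extension of `F` are bounded, that
is, `μ = 0` for `F`.

Let `k / ℚ` be a finite Galois extension of degree prime to `p`, for example an imaginary quadratic field. Then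
`μ = 0` for all abelian extensions `K` of `k` is equivalent to the relative form of this statement for the extensions
`N / M` of prime degree `ℓ ≠ p`, where `k ⊆ M ⊆ N`, `N / k` is abelian and of degree prime to `p`, `N / M` is unramified at all
places, and all primes which ramify in `N / ℚ`, and all primes above a given number `m`, split completely in `N / M`. For
each such `N / M` it is enough that the relative part of one layer is small: its order is less than
`p ^ (f (p ^ n - 1))` in the layer of degree `p ^ n`, where `f` is the order of `p` modulo `ℓ`.
-/

set_option autoImplicit false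

namespace Pool.Agent.Results.MP_b78433_nt.UnramifiedSteps

open Pool.Agent.Run7.h759.UD
open Pool.Agent.Q60.MU (inertia inertia_conj)

theorem result (p : ℕ) [Fact p.Prime] (hp2 : p ≠ 2) (m : ℕ) (hm : m ≠ 0) (k : Fld) (hk : IsNF k)
    (hkg : GalOver ⊥ k) (hpk : ¬ p ∣ deg k) :
    (MuNullAbelian p Inert k ↔
      MuNull p Inert k ∧ ∀ ℓ M N, IsAbelianStep p m k ℓ M N → RelMuNull p Inert M N) ∧
    (MuNullAbelian p Inert k ↔
      MuNull p Inert k ∧ ∀ ℓ M N, IsAbelianStep p m k ℓ M N → SmallPart p Inert ℓ M N) :=
  ⟨abelian_rel p hp2 describes_inert inertia_conj (fun _ _ => le_rfl) hm hk hpk,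
    abelian_small p hp2 describes_inert inertia_conj (fun _ _ => le_rfl) hm hk
      (Pool.Agent.Run7.h759.UM.stableOver_bot.1 (galOver_iff.1 hkg)) hpk (fun _ _ => le_rfl)⟩

end Pool.Agent.Results.MP_b78433_nt.UnramifiedSteps
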